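import Pool.Agent.H20.MT.Stmts

set_option autoImplicit false

namespace MTA
open Finset

/-! ### Gram matrices -/

theorem QU_gramOf {J X : Type} [Fintype X] (M : J → J → ℝ) (g : X → J → ℝ)
    (h : ∀ a b, M a b = ∑ i, g i a * g i b) : IsGram M := by
  refine ⟨Fintype.card X, fun i => g ((Fintype.equivFin X).symm i), fun a b => ?_⟩
  rw [h]
  exact ((Fintype.equivFin X).symm.sum_comp (fun i => g i a * g i b)).symm

theorem QU_gramDiag {J : Type} [Fintype J] [DecidableEq J] (d : J → ℝ) (hd : ∀ a, 0 ≤ d a) :
    IsGram (fun a b => if a = b then d a else 0) := by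
  refine QU_gramOf _ (fun x a => if x = a then Real.sqrt (d a) else 0) fun a b => ?_
  simp only [ite_mul, zero_mul]
  rw [Finset.sum_ite_eq']
  simp only [Finset.mem_univ, if_true]
  by_cases hab : a = b
  · subst hab
    simp [Real.mul_self_sqrt (hd a)]
  · simp [hab]

/-- the form of a diagonal product kernel -/
theorem QU_diag {ι J : Type} [Fintype ι] [DecidableEq ι] [Fintype J] [DecidableEq J]
    (d : ι → J → ℝ) (v : (ι → J) → ℝ) :
    ∑ A, ∑ B, v A * v B * ∏ i, (if A i = B i then d i (A i) else 0) =
      ∑ A, v A ^ 2 * ∏ i, d i (A i) := by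
  refine Finset.sum_congr rfl fun A _ => ?_
  rw [Finset.sum_eq_single A]
  · simp [sq]
  · intro B _ hB
    obtain ⟨i, hi⟩ : ∃ i, B i ≠ A i := by
      by_contra hcon
      push Not at hcon
      exact hB (funext hcon)
    rw [Finset.prod_eq_zero (Finset.mem_univ i) (by rw [if_neg (fun h => hi h.symm)]), mul_zero]
  · intro h
    exact absurd (Finset.mem_univ A) h

/-! ### the local matrices -/

/-- change of basis -/
noncomputable def QU_T {n : ℕ} (c s : Fin (n + 1) → ℝ) :
    Option (Fin (n + 1)) → Option (Fin (n + 1)) → ℝ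
  | none, none => 1
  | none, some _ => 0
  | some k, none => c k
  | some k, some l => if k = l then s k else 0

/-- covariance matrix -/
noncomputable def QU_M {n : ℕ} (c : Fin (n + 1) → ℝ) :
    Option (Fin (n + 1)) → Option (Fin (n + 1)) → ℝ
  | none, none => 1
  | none, some _ => 0
  | some _, none => 0
  | some k, some l => (if k = l then c k else 0) - c k * c l

/-- moment matrix -/
noncomputable def QU_W {n : ℕ} (c : Fin (n + 1) → ℝ) :
    Option (Fin (n + 1)) → Option (Fin (n + 1)) → ℝ
  | none, none => 1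
  | none, some l => c l
  | some k, none => c k
  | some k, some l => if k = l then c k else 0

/-- diagonal matrix -/
noncomputable def QU_N {n : ℕ} (c : Fin (n + 1) → ℝ) :
    Option (Fin (n + 1)) → ℝ
  | none => 1
  | some k => c k

theorem QU_TMT {n : ℕ} (c s : Fin (n + 1) → ℝ) (hs : ∀ k, s k * c k = c k)
    (x y : Option (Fin (n + 1))) :
    ∑ a, ∑ b, QU_T c s x a * QU_T c s y b * QU_M c a b = QU_W c x y := by
  rcases x with _ | k <;> rcases y with _ | l
  · simp [Fintype.sum_option, QU_T, QU_M, QU_W]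
  · simp [Fintype.sum_option, QU_T, QU_M, QU_W]
  · simp [Fintype.sum_option, QU_T, QU_M, QU_W]
  · have e : ∑ a, ∑ b, QU_T c s (some k) a * QU_T c s (some l) b * QU_M c a b =
        c k * c l + s k * s l * ((if k = l then c k else 0) - c k * c l) := by
      rw [Fintype.sum_option, Fintype.sum_option]
      have e1 : ∑ i : Fin (n + 1), QU_T c s (some k) none * QU_T c s (some l) (some i) *
          QU_M c none (some i) = 0 := by simp [QU_M]
      have e2 : ∀ i : Fin (n + 1), ∑ b, QU_T c s (some k) (some i) * QU_T c s (some l) b *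
          QU_M c (some i) b = if i = k then
            s k * s l * ((if k = l then c k else 0) - c k * c l) else 0 := by
        intro i
        rw [Fintype.sum_option, Finset.sum_eq_single l]
        · by_cases hik : i = k
          · subst hik
            simp [QU_T, QU_M]
          · simp [QU_T, QU_M, hik, Ne.symm hik]
        · intro j _ hj
          simp [QU_T, hj.symm]
        · intro h; exact absurd (Finset.mem_univ l) h
      rw [e1, Finset.sum_congr rfl fun i _ => e2 i, Finset.sum_ite_eq']
      simp [QU_T, QU_M]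
    rw [e]
    have e3 : QU_W c (some k) (some l) = if k = l then c k else 0 := rfl
    rw [e3]
    by_cases hkl : k = l
    · subst hkl
      simp only [if_true]
      have h1 := hs k
      linear_combination (s k + 1 - s k * c k - c k) * h1
    · rw [if_neg hkl]
      have h1 := hs k
      have h2 := hs l
      linear_combination (-(s l * c l)) * h1 - c k * h2

theorem QU_sumsq {n : ℕ} (c : Fin (n + 1) → ℝ) (k l : Fin (n + 1)) (a b : ℝ) :
    ∑ i, c i * (((if i = k then 1 else 0) - a) * ((if i = l then 1 else 0) - b)) =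
      (if k = l then c k else 0) - b * c k - a * c l + a * b * ∑ i, c i := by
  have e : ∀ i, c i * (((if i = k then 1 else 0) - a) * ((if i = l then 1 else 0) - b)) =
      (if i = k then (if i = l then c i else 0) else 0) - (if i = k then b * c i else 0) -
        (if i = l then a * c i else 0) + a * b * c i := by
    intro i
    split_ifs <;> ring
  rw [Finset.sum_congr rfl fun i _ => e i, Finset.sum_add_distrib, Finset.sum_sub_distrib,
    Finset.sum_sub_distrib, Finset.sum_ite_eq', Finset.sum_ite_eq', Finset.sum_ite_eq',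
    ← Finset.mul_sum]
  simp

theorem QU_sumlin {n : ℕ} (c : Fin (n + 1) → ℝ) (k : Fin (n + 1)) (a : ℝ) :
    ∑ i, c i * ((if i = k then 1 else 0) - a) = c k - a * ∑ i, c i := by
  have e : ∀ i, c i * ((if i = k then 1 else 0) - a) = (if i = k then c i else 0) - a * c i := by
    intro i
    split_ifs <;> ring
  rw [Finset.sum_congr rfl fun i _ => e i, Finset.sum_sub_distrib, Finset.sum_ite_eq',
    ← Finset.mul_sum]
  simp

/-- the weights on the sample space -/
noncomputable def QU_pi {n : ℕ} (c : Fin (n + 1) → ℝ) : Option (Fin (n + 1)) → ℝ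
  | none => 1 - ∑ k, c k
  | some k => c k

/-- the functions on the sample space -/
noncomputable def QU_psi {n : ℕ} (c : Fin (n + 1) → ℝ) :
    Option (Fin (n + 1)) → Option (Fin (n + 1)) → ℝ
  | _, none => 1
  | none, some k => 0 - c k
  | some i, some k => (if i = k then 1 else 0) - c k

theorem QU_gramM {n : ℕ} (c : Fin (n + 1) → ℝ) (h0 : ∀ k, 0 ≤ c k) (h1 : ∑ k, c k ≤ 1) :
    IsGram (QU_M c) := by
  have hp : ∀ x, 0 ≤ QU_pi c x := by
    intro x
    rcases x with _ | k
    · exact sub_nonneg.2 h1
    · exact h0 k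
  refine QU_gramOf (X := Option (Fin (n + 1))) _
    (fun x a => Real.sqrt (QU_pi c x) * QU_psi c x a) fun a b => ?_
  have e2 : ∀ x : Option (Fin (n + 1)), Real.sqrt (QU_pi c x) * QU_psi c x a *
      (Real.sqrt (QU_pi c x) * QU_psi c x b) = QU_pi c x * (QU_psi c x a * QU_psi c x b) := by
    intro x
    rw [mul_mul_mul_comm, Real.mul_self_sqrt (hp x)]
  rw [Finset.sum_congr rfl fun x _ => e2 x, Fintype.sum_option]
  rcases a with _ | k <;> rcases b with _ | l
  · simp [QU_pi, QU_psi, QU_M]
  · simp only [QU_pi, QU_psi, QU_M, one_mul]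
    rw [QU_sumlin]; ring
  · simp only [QU_pi, QU_psi, QU_M, mul_one]
    rw [QU_sumlin]; ring
  · simp only [QU_pi, QU_psi, QU_M]
    rw [QU_sumsq]; ring

/-- the difference with the diagonal matrix is a rank one Gram matrix -/
theorem QU_gramDiff {n : ℕ} (c : Fin (n + 1) → ℝ) :
    IsGram (fun a b => (if a = b then QU_N c a else 0) - QU_M c a b) := by
  refine QU_gramOf (X := Unit) _ (fun _ a => match a with
    | none => 0
    | some k => c k) fun a b => ?_
  rcases a with _ | k <;> rcases b with _ | l
  · simp [QU_N, QU_M]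
  · simp [QU_M]
  · simp [QU_M]
  · by_cases hkl : k = l
    · subst hkl
      simp [QU_N, QU_M]
    · simp [QU_M, hkl]

/-- `Ls` followed by the change of basis -/
theorem QU_LsT {n : ℕ} (p : ℕ) (c s : Fin (n + 1) → ℝ) (x z : Option (Fin (n + 1))) :
    ∑ y, Ls n p x y * QU_T c s y z = match x, z with
      | none, none => 1
      | none, some _ => 0
      | some k, none => 1 / p - c k
      | some k, some l => if k = l then - s k else 0 := by
  rcases x with _ | k <;> rcases z with _ | l
  · simp [Fintype.sum_option, Ls, QU_T]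
  · simp [Fintype.sum_option, Ls, QU_T]
  · simp only [Fintype.sum_option, Ls, QU_T, mul_one, ite_mul, neg_mul, one_mul, zero_mul,
      Finset.sum_ite_eq, Finset.mem_univ, if_true]
    ring
  · simp only [Fintype.sum_option, Ls, QU_T, ite_mul, neg_mul, one_mul, zero_mul,
      Finset.sum_ite_eq, Finset.mem_univ, if_true, mul_zero, zero_add]
    split_ifs <;> simp

theorem QU (hT : S_TENS) (hC : S_CHB) (hK : S_COMP) : S_QU := by
  intro P n hP y
  have hp0 : ∀ p ∈ P, (0 : ℝ) < p := fun p hp => by exact_mod_cast (hP p hp).1.pos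
  set c : ℕ → Fin (n + 1) → ℝ := fun p _ => 1 / (p : ℝ) with hc
  set s : ℕ → Fin (n + 1) → ℝ := fun _ _ => 1 with hs
  have h1 : qform (wU n) (lamv y) = qform (fun p => QU_M (c p)) (ltrans (fun p => QU_T (c p) (s p))
      (lamv y)) := by
    refine hC P _ (wU n) (fun p => QU_T (c p) (s p)) (fun p => QU_M (c p)) ?_ (lamv y)
    intro p _ a b
    rw [QU_TMT _ _ (by intro k; simp [hs])]
    rcases a with _ | k <;> rcases b with _ | l <;> simp [wU, QU_W, hc]
  rw [h1, lamv, hK P _ (Ls n) (fun p => QU_T (c p) (s p))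
    (fun p => fun x z => ∑ y, Ls n p x y * QU_T (c p) (s p) y z) (fun _ _ _ _ => rfl)]
  set v : Cfg P n → ℝ := ltrans (fun p => fun x z => ∑ y, Ls n p x y * QU_T (c p) (s p) y z) y
    with hv
  have h2 : qform (fun p => QU_M (c p)) v ≤ ∑ A : Cfg P n, ∑ B : Cfg P n, v A * v B *
      ∏ p : ↥P, (if A p = B p then QU_N (c (p : ℕ)) (A p) else 0) := by
    refine hT ↥P _ (fun p => QU_M (c (p : ℕ))) (fun p a b => if a = b then QU_N (c (p : ℕ)) a else 0)
      (fun p => QU_gramM _ ?_ ?_) (fun p => QU_gramDiff _) v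
    · intro k
      exact div_nonneg zero_le_one (hp0 p p.2).le
    · rw [hc]
      simp only [Finset.sum_const, Finset.card_univ, Fintype.card_fin, nsmul_eq_mul]
      rw [mul_one_div, div_le_one (hp0 p p.2)]
      exact_mod_cast (hP p p.2).2
  refine h2.trans (le_of_eq ?_)
  rw [QU_diag (fun p : ↥P => QU_N (c (p : ℕ)))]
  refine Finset.sum_congr rfl fun A _ => ?_
  have h3 : v A = y A * ∏ p : ↥P, (if (A p).isSome then (-1 : ℝ) else 1) := by
    rw [hv]
    unfold ltrans
    rw [Finset.sum_eq_single A]
    · congr 1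
      refine Finset.prod_congr rfl fun p _ => ?_
      beta_reduce
      rw [QU_LsT]
      rcases hA : A p with _ | k <;> simp [hs]
    · intro B _ hB
      obtain ⟨p, hp⟩ : ∃ p, B p ≠ A p := by
        by_contra hcon
        push Not at hcon
        exact hB (funext hcon)
      rw [Finset.prod_eq_zero (Finset.mem_univ p), mul_zero]
      beta_reduce
      rw [QU_LsT]
      rcases hA : A p with _ | k <;> rcases hB' : B p with _ | l
      · exact absurd (hB'.trans hA.symm) hp
      · simp [hc]
      · simp
      · have : l ≠ k := by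
          intro h
          exact hp (by rw [hA, hB', h])
        simp [this]
    · intro h; exact absurd (Finset.mem_univ A) h
  have h4 : v A ^ 2 = y A ^ 2 := by
    rw [h3, mul_pow, ← Finset.prod_pow]
    have : ∏ p : ↥P, (if (A p).isSome then (-1 : ℝ) else 1) ^ 2 = 1 := by
      refine Finset.prod_eq_one fun p _ => ?_
      split_ifs <;> norm_num
    rw [this, mul_one]
  rw [h4, div_eq_mul_inv]
  congr 1
  unfold qq
  rw [Nat.cast_prod, ← Finset.prod_inv_distrib]
  refine Finset.prod_congr rfl fun p _ => ?_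
  rcases hA : A p with _ | k <;> simp [QU_N, hc]

/-! ### prime model -/

/-- the weights in the prime model -/
noncomputable def QU_c {n : ℕ} (k : Fin (n + 1)) (u : ℝ) (l : Fin (n + 1)) : ℝ :=
  if l = k then 0 else u

theorem QU_sum_c {n : ℕ} (k : Fin (n + 1)) (u : ℝ) : ∑ l, QU_c k u l = n * u := by
  unfold QU_c
  have h : ∑ l : Fin (n + 1), (if l = k then 0 else u) = ∑ l : Fin (n + 1), (u - if l = k then u else 0) := by
    refine Finset.sum_congr rfl fun l _ => ?_
    split_ifs <;> simp
  rw [h, Finset.sum_sub_distrib, Finset.sum_ite_eq']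
  simp only [Finset.sum_const, Finset.card_univ, Fintype.card_fin, nsmul_eq_mul, Finset.mem_univ,
    if_true]
  push_cast
  ring

/-- the covariance matrix of the prime model is bounded below -/
theorem QU_gramLow {n : ℕ} (k : Fin (n + 1)) (u : ℝ) :
    IsGram (fun a b => QU_M (QU_c k u) a b -
      (if a = b then QU_N (QU_c k (u * (1 - n * u))) a else 0)) := by
  refine QU_gramOf (X := Fin (n + 1)) _ (fun i a => match a with
    | none => 0
    | some l => if l = k then 0 else if i = k then 0 else
        Real.sqrt n * u * ((if i = l then 1 else 0) - 1 / n)) fun a b => ?_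
  rcases a with _ | l <;> rcases b with _ | m
  · simp [QU_N, QU_M]
  · simp [QU_M]
  · simp [QU_M]
  · simp only [QU_N, QU_M, Option.some.injEq]
    by_cases hl : l = k
    · subst hl
      by_cases hlm : l = m <;> simp [QU_c, hlm]
    by_cases hm : m = k
    · subst hm
      simp [QU_c, hl]
    simp only [hl, hm, if_false]
    have hn : (n : ℝ) ≠ 0 := by
      intro h0
      have h0' : n = 0 := by exact_mod_cast h0
      subst h0'
      exact hl (Subsingleton.elim (α := Fin 1) _ _)
    have e : ∀ i : Fin (n + 1), (if i = k then 0 else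
        Real.sqrt n * u * ((if i = l then 1 else 0) - 1 / n)) * (if i = k then 0 else
        Real.sqrt n * u * ((if i = m then 1 else 0) - 1 / n)) =
        QU_c k (n * u ^ 2) i * (((if i = l then 1 else 0) - 1 / n) *
          ((if i = m then 1 else 0) - 1 / n)) := by
      intro i
      unfold QU_c
      by_cases hi : i = k
      · simp [hi]
      · simp only [hi, if_false]
        have := Real.mul_self_sqrt (Nat.cast_nonneg (α := ℝ) n)
        linear_combination (u ^ 2 * ((if i = l then (1 : ℝ) else 0) - 1 / n) *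
          ((if i = m then 1 else 0) - 1 / n)) * this
    rw [Finset.sum_congr rfl fun i _ => e i, QU_sumsq, QU_sum_c]
    by_cases hlm : l = m
    · subst hlm
      simp only [QU_c, hl, if_false, if_true]
      field_simp
      ring
    · simp only [QU_c, hl, hm, hlm, if_false]
      field_simp
      ring

theorem QU_W_eq {n : ℕ} (k : Fin (n + 1)) (p : ℕ) (a b : Option (Fin (n + 1))) :
    wK k p a b = QU_W (QU_c k (1 / ((p : ℝ) - 1))) a b := by
  rcases a with _ | l <;> rcases b with _ | m
  · simp [wK, QU_W]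
  · simp [wK, QU_W, QU_c]
  · simp [wK, QU_W, QU_c]
  · simp only [wK, QU_W, QU_c]
    by_cases hlm : l = m
    · subst hlm
      by_cases hl : l = k <;> simp [hl]
    · simp [hlm]

theorem QU_mK_eq {n : ℕ} (k : Fin (n + 1)) (p : ℕ) (hp : p.Prime) (x z : Option (Fin (n + 1))) :
    mK k p x z = ∑ y, Ls n p x y * QU_T (QU_c k (1 / ((p : ℝ) - 1))) (QU_c k 1) y z := by
  have h0 : (p : ℝ) ≠ 0 := by exact_mod_cast hp.ne_zero
  have h1 : (p : ℝ) - 1 ≠ 0 := by
    have : (1 : ℝ) < p := by exact_mod_cast hp.one_lt
    linarith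
  rw [QU_LsT]
  rcases x with _ | l <;> rcases z with _ | m
  · simp [mK]
  · simp [mK]
  · simp only [mK, QU_c]
    by_cases hl : l = k
    · simp [hl]
    · simp only [hl, if_false]
      field_simp
      ring
  · simp only [mK, QU_c]
    by_cases hlm : l = m
    · subst hlm
      by_cases hl : l = k <;> simp [hl]
    · simp [hlm]

theorem QU_prodN {P : Finset ℕ} {n : ℕ} (k : Fin (n + 1)) (f : ℕ → ℝ) (A : Cfg P n) :
    ∏ p : ↥P, QU_N (QU_c k (f p)) (A p) = if Avoid k A then sprod f A else 0 := by
  by_cases hA : Avoid k A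
  · rw [if_pos hA, sprod]
    refine Finset.prod_congr rfl fun p _ => ?_
    rcases h : A p with _ | l
    · simp [QU_N]
    · have : l ≠ k := by
        intro hlk
        exact hA p (by rw [h, hlk])
      simp [QU_N, QU_c, this]
  · rw [if_neg hA]
    unfold Avoid at hA
    push Not at hA
    obtain ⟨p, hp⟩ := hA
    refine Finset.prod_eq_zero (Finset.mem_univ p) ?_
    simp [hp, QU_N, QU_c]

theorem QK (hT : S_TENS) (hC : S_CHB) (hK : S_COMP) : S_QK := by
  intro P n k hP y
  have hp1 : ∀ p ∈ P, (n : ℝ) + 1 ≤ (p : ℝ) - 1 := fun p hp => by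
    have : ((n + 2 : ℕ) : ℝ) ≤ p := by exact_mod_cast (hP p hp).2
    push_cast at this
    linarith
  have hn0 : (0 : ℝ) ≤ n := Nat.cast_nonneg n
  set c : ℕ → Fin (n + 1) → ℝ := fun p => QU_c k (1 / ((p : ℝ) - 1)) with hc
  set s : ℕ → Fin (n + 1) → ℝ := fun _ => QU_c k 1 with hs
  have h1 : qform (wK k) (lamv y) = qform (fun p => QU_M (c p)) (ltrans (fun p => QU_T (c p) (s p))
      (lamv y)) := by
    refine hC P _ (wK k) (fun p => QU_T (c p) (s p)) (fun p => QU_M (c p)) ?_ (lamv y)
    intro p _ a b
    rw [QU_TMT _ _ (by intro l; simp only [hs, hc, QU_c]; split_ifs <;> simp), QU_W_eq]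
  rw [h1, lamv, hK P _ (Ls n) (fun p => QU_T (c p) (s p)) (mK k)
    (fun p hp x z => QU_mK_eq k p (hP p hp).1 x z)]
  set v : Cfg P n → ℝ := ltrans (mK k) y with hv
  have h2 : ∑ A : Cfg P n, ∑ B : Cfg P n, v A * v B *
      ∏ p : ↥P, (if A p = B p then QU_N (QU_c k (1 / (((p : ℕ) : ℝ) - 1) *
        (1 - n * (1 / (((p : ℕ) : ℝ) - 1))))) (A p) else 0) ≤ qform (fun p => QU_M (c p)) v := by
    refine hT ↥P _ (fun p a b => if a = b then QU_N (QU_c k (1 / (((p : ℕ) : ℝ) - 1) *
        (1 - n * (1 / (((p : ℕ) : ℝ) - 1))))) a else 0) (fun p => QU_M (c (p : ℕ)))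
      (fun p => QU_gramDiag _ ?_) (fun p => QU_gramLow k _) v
    intro a
    have hpos : 0 < ((p : ℕ) : ℝ) - 1 := by linarith [hp1 p p.2]
    rcases a with _ | l
    · simp [QU_N]
    · simp only [QU_N, QU_c]
      split_ifs
      · exact le_refl _
      · refine mul_nonneg (div_nonneg zero_le_one hpos.le) ?_
        rw [mul_one_div, sub_nonneg, div_le_one hpos]
        linarith [hp1 p p.2]
  refine le_trans (le_of_eq ?_) h2
  rw [QU_diag (fun p : ↥P => QU_N (QU_c k (1 / (((p : ℕ) : ℝ) - 1) *
        (1 - n * (1 / (((p : ℕ) : ℝ) - 1))))))]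
  rw [Finset.sum_filter]
  refine Finset.sum_congr rfl fun A _ => ?_
  rw [QU_prodN k (fun p => 1 / ((p : ℝ) - 1) * (1 - n * (1 / ((p : ℝ) - 1)))) A]
  split_ifs
  · congr 2
    funext p
    rw [mul_one_div]
  · simp

theorem QB (hT : S_TENS) (hC : S_CHB) (hK : S_COMP) : S_QB := by
  intro P n k _ hP p0 y
  have hp1 : ∀ p ∈ P, (n : ℝ) + 1 ≤ (p : ℝ) - 1 := fun p hp => by
    have : ((n + 2 : ℕ) : ℝ) ≤ p := by exact_mod_cast (hP p hp).2
    push_cast at this
    linarith
  have hn0 : (0 : ℝ) ≤ n := Nat.cast_nonneg n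
  have hpos0 : 0 < (((p0 : ℕ) : ℝ) - 1) := by linarith [hp1 p0 p0.2]
  set c : ℕ → Fin (n + 1) → ℝ := fun p => QU_c k (1 / ((p : ℝ) - 1)) with hc
  set s : ℕ → Fin (n + 1) → ℝ := fun _ => QU_c k 1 with hs
  set T0 : Option (Fin (n + 1)) → Option (Fin (n + 1)) → ℝ := fun x z =>
    if (x = none ∨ x = some 0) ∧ z = none then 1 else 0 with hT0
  set d0 : Option (Fin (n + 1)) → ℝ := fun x => if x = none then 1 / (((p0 : ℕ) : ℝ) - 1) else 0
    with hd0
  set T : ℕ → Option (Fin (n + 1)) → Option (Fin (n + 1)) → ℝ := fun p =>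
    if p = (p0 : ℕ) then T0 else QU_T (c p) (s p) with hTT
  set M : ℕ → Option (Fin (n + 1)) → Option (Fin (n + 1)) → ℝ := fun p =>
    if p = (p0 : ℕ) then (fun a b => if a = b then d0 a else 0) else QU_M (c p) with hM
  set N : ℕ → Option (Fin (n + 1)) → ℝ := fun p =>
    if p = (p0 : ℕ) then d0 else QU_N (c p) with hN
  have h1 : qform (wKB k (p0 : ℕ)) (lamv y) = qform M (ltrans T (lamv y)) := by
    refine hC P _ (wKB k (p0 : ℕ)) T M ?_ (lamv y)
    intro p _ a b
    by_cases hp : p = (p0 : ℕ)
    · simp only [hTT, hM, wKB, if_pos hp]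
      rw [Finset.sum_eq_single none]
      · rw [Finset.sum_eq_single none]
        · simp only [hT0, hd0, wB, hp]
          by_cases ha : a = none ∨ a = some 0 <;> by_cases hb : b = none ∨ b = some 0 <;>
            simp [ha, hb]
        · intro x _ hx
          simp [hT0, hx]
        · intro h; exact absurd (Finset.mem_univ _) h
      · intro x _ hx
        refine Finset.sum_eq_zero fun z _ => ?_
        simp [hT0, hx]
      · intro h; exact absurd (Finset.mem_univ _) h
    · simp only [hTT, hM, wKB, if_neg hp]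
      rw [QU_TMT _ _ (by intro l; simp only [hs, hc, QU_c]; split_ifs <;> simp), QU_W_eq]
  rw [h1, lamv, hK P _ (Ls n) T (mKB k (p0 : ℕ)) (by
    intro p hp x z
    by_cases hpp : p = (p0 : ℕ)
    · simp only [hTT, mKB, if_pos hpp]
      rcases x with _ | l <;> rcases z with _ | m
      · simp [Fintype.sum_option, Ls, mB, hT0]
      · simp [Fintype.sum_option, Ls, mB, hT0]
      · simp only [Fintype.sum_option, Ls, mB, hT0]
        by_cases hl : l = 0
        · subst hl
          simp
          ring
        · simp [hl]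
      · simp [Fintype.sum_option, mB, hT0]
    · simp only [hTT, mKB, if_neg hpp]
      exact QU_mK_eq k p (hP p hp).1 x z)]
  set v : Cfg P n → ℝ := ltrans (mKB k (p0 : ℕ)) y with hv
  have h2 : qform M v ≤ ∑ A : Cfg P n, ∑ B : Cfg P n, v A * v B *
      ∏ p : ↥P, (if A p = B p then N (p : ℕ) (A p) else 0) := by
    refine hT ↥P _ (fun p => M (p : ℕ)) (fun p a b => if a = b then N (p : ℕ) a else 0)
      (fun p => ?_) (fun p => ?_) v
    · by_cases hp : (p : ℕ) = (p0 : ℕ)
      · simp only [hM, if_pos hp]
        refine QU_gramDiag _ fun a => ?_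
        simp only [hd0]
        split_ifs
        · exact div_nonneg zero_le_one hpos0.le
        · exact le_refl _
      · simp only [hM, if_neg hp]
        have hpos : 0 < ((p : ℕ) : ℝ) - 1 := by linarith [hp1 p p.2]
        refine QU_gramM _ ?_ ?_
        · intro l
          simp only [hc, QU_c]
          split_ifs
          · exact le_refl _
          · exact div_nonneg zero_le_one hpos.le
        · simp only [hc]
          rw [QU_sum_c, mul_one_div, div_le_one hpos]
          linarith [hp1 p p.2]
    · by_cases hp : (p : ℕ) = (p0 : ℕ)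
      · simp only [hM, hN, if_pos hp, sub_self]
        exact QU_gramOf (X := Unit) _ (fun _ _ => 0) fun a b => by simp
      · simp only [hM, hN, if_neg hp]
        exact QU_gramDiff _
  refine h2.trans (le_of_eq ?_)
  rw [QU_diag (fun p : ↥P => N (p : ℕ)), Finset.sum_filter, Finset.mul_sum]
  refine Finset.sum_congr rfl fun A _ => ?_
  by_cases hA : Avoid k A ∧ A p0 = none
  · rw [if_pos hA]
    have h3 : ∏ p : ↥P, N (p : ℕ) (A p) = 1 / (((p0 : ℕ) : ℝ) - 1) *
        sprod (fun p => 1 / ((p : ℝ) - 1)) A := by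
      unfold sprod
      rw [← Finset.mul_prod_erase univ _ (Finset.mem_univ p0),
        ← Finset.mul_prod_erase univ (fun p : ↥P => if (A p).isSome then
          1 / (((p : ℕ) : ℝ) - 1) else 1) (Finset.mem_univ p0)]
      have e1 : N (p0 : ℕ) (A p0) = 1 / (((p0 : ℕ) : ℝ) - 1) := by
        simp [hN, hd0, hA.2]
      rw [e1]
      simp only [hA.2, Option.isSome_none, Bool.false_eq_true, if_false, one_mul]
      congr 1
      refine Finset.prod_congr rfl fun p hp => ?_
      have hne : (p : ℕ) ≠ (p0 : ℕ) := fun h => (Finset.ne_of_mem_erase hp) (Subtype.ext h)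
      simp only [hN, if_neg hne]
      rcases h : A p with _ | l
      · simp [QU_N]
      · have : l ≠ k := by
          intro hlk
          exact hA.1 p (by rw [h, hlk])
        simp [QU_N, hc, QU_c, this]
    rw [h3]
    ring
  · rw [if_neg hA, mul_zero]
    have h3 : ∏ p : ↥P, N (p : ℕ) (A p) = 0 := by
      by_cases hA1 : A p0 = none
      · have hA2 : ¬ Avoid k A := fun h => hA ⟨h, hA1⟩
        unfold Avoid at hA2
        push Not at hA2
        obtain ⟨p, hp⟩ := hA2
        have hne : (p : ℕ) ≠ (p0 : ℕ) := by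
          intro h
          have : p = p0 := Subtype.ext h
          rw [this, hA1] at hp
          exact absurd hp (by simp)
        refine Finset.prod_eq_zero (Finset.mem_univ p) ?_
        simp [hN, hne, hp, QU_N, hc, QU_c]
      · refine Finset.prod_eq_zero (Finset.mem_univ p0) ?_
        simp [hN, hd0, hA1]
    rw [h3, mul_zero]

end MTA
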