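import Pool.Agent.H20.MT.Stmts

set_option autoImplicit false

namespace MTA
open Finset

/-- a form with product kernel with Gram factors is nonnegative -/
theorem TENS_nonneg {ι J : Type} [Fintype ι] [DecidableEq ι] [Fintype J]
    (H : ι → J → J → ℝ) (hH : ∀ i, IsGram (H i)) (v : (ι → J) → ℝ) :
    0 ≤ ∑ A, ∑ B, v A * v B * ∏ i, H i (A i) (B i) := by
  choose m g hg using hH
  have h1 : ∀ A B : ι → J, ∏ i, H i (A i) (B i) =
      ∑ s ∈ Fintype.piFinset (fun i => (univ : Finset (Fin (m i)))),
        (∏ i, g i (s i) (A i)) * ∏ i, g i (s i) (B i) := by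
    intro A B
    have h2 : ∏ i, H i (A i) (B i) = ∏ i, ∑ j ∈ (univ : Finset (Fin (m i))),
        g i j (A i) * g i j (B i) := Finset.prod_congr rfl fun i _ => hg i _ _
    rw [h2, Finset.prod_univ_sum]
    exact Finset.sum_congr rfl fun s _ => Finset.prod_mul_distrib
  have h3 : ∑ A, ∑ B, v A * v B * ∏ i, H i (A i) (B i) =
      ∑ s ∈ Fintype.piFinset (fun i => (univ : Finset (Fin (m i)))),
        (∑ A : ι → J, v A * ∏ i, g i (s i) (A i)) ^ 2 := by
    simp_rw [h1, Finset.mul_sum]
    rw [Finset.sum_congr rfl fun A _ => Finset.sum_comm, Finset.sum_comm]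
    refine Finset.sum_congr rfl fun s _ => ?_
    rw [sq, Finset.sum_mul_sum]
    refine Finset.sum_congr rfl fun A _ => Finset.sum_congr rfl fun B _ => ?_
    ring
  rw [h3]
  exact Finset.sum_nonneg fun s _ => sq_nonneg _

theorem TENS_add {J : Type} {M D : J → J → ℝ} (hM : IsGram M) (hD : IsGram D) :
    IsGram (fun a b => M a b + D a b) := by
  obtain ⟨m, g, hg⟩ := hM
  obtain ⟨m', g', hg'⟩ := hD
  refine ⟨m + m', Fin.append g g', fun a b => ?_⟩
  rw [Fin.sum_univ_add]
  simp only [Fin.append_left, Fin.append_right]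
  rw [hg, hg']

/-- TENS: forms with product kernels are monotone in the local factors -/
theorem TENS : S_TENS := by
  intro ι J _ _ _ _ M N hM hD v
  classical
  have hN : ∀ i, IsGram (N i) := by
    intro i
    have h := TENS_add (hM i) (hD i)
    have e : (fun a b => M i a b + (N i a b - M i a b)) = N i := by
      funext a b; ring
    rwa [e] at h
  have key : ∀ s : Finset ι, ∑ A, ∑ B, v A * v B * ∏ i, M i (A i) (B i) ≤
      ∑ A, ∑ B, v A * v B * ∏ i, (if i ∈ s then N i else M i) (A i) (B i) := by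
    intro s
    induction s using Finset.induction_on with
    | empty => simp
    | insert i s hi ih =>
      refine ih.trans ?_
      rw [← sub_nonneg, ← Finset.sum_sub_distrib]
      have h := TENS_nonneg (fun j => if j = i then (fun a b => N i a b - M i a b) else
        (if j ∈ s then N j else M j)) (by
          intro j
          by_cases hj : j = i
          · subst hj
            simpa using hD j
          · by_cases hs : j ∈ s
            · simpa [hj, hs] using hN j
            · simpa [hj, hs] using hM j) v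
      refine h.trans (le_of_eq ?_)
      refine Finset.sum_congr rfl fun A _ => ?_
      rw [← Finset.sum_sub_distrib]
      refine Finset.sum_congr rfl fun B _ => ?_
      rw [← mul_sub]
      congr 1
      rw [← Finset.mul_prod_erase univ _ (Finset.mem_univ i),
        ← Finset.mul_prod_erase univ (fun j => (if j ∈ insert i s then N j else M j) (A j) (B j))
          (Finset.mem_univ i),
        ← Finset.mul_prod_erase univ (fun j => (if j ∈ s then N j else M j) (A j) (B j))
          (Finset.mem_univ i)]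
      have e1 : ∏ j ∈ univ.erase i, (if j = i then (fun a b => N i a b - M i a b) else
          (if j ∈ s then N j else M j)) (A j) (B j) =
          ∏ j ∈ univ.erase i, (if j ∈ s then N j else M j) (A j) (B j) := by
        refine Finset.prod_congr rfl fun j hj => ?_
        rw [if_neg (Finset.ne_of_mem_erase hj)]
      have e2 : ∏ j ∈ univ.erase i, (if j ∈ insert i s then N j else M j) (A j) (B j) =
          ∏ j ∈ univ.erase i, (if j ∈ s then N j else M j) (A j) (B j) := by
        refine Finset.prod_congr rfl fun j hj => ?_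
        have hne := Finset.ne_of_mem_erase hj
        by_cases hs : j ∈ s
        · simp [hs]
        · simp [hs, hne]
      rw [e1, e2]
      simp only [if_true, Finset.mem_insert_self, hi, if_false]
      ring
  have h := key univ
  simpa using h

/-- COMP: composition of two local transforms -/
theorem COMP : S_COMP := by
  intro P J _ _ S T U hU y
  funext B
  unfold ltrans
  have h1 : ∀ A C : ↥P → J, ∏ p : ↥P, U p (A p) (B p) =
      ∑ C : ↥P → J, (∏ p : ↥P, S p (A p) (C p)) * ∏ p : ↥P, T p (C p) (B p) := by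
    intro A _
    have h2 : ∏ p : ↥P, U p (A p) (B p) = ∏ p : ↥P, ∑ a ∈ (univ : Finset J),
        S p (A p) a * T p a (B p) := Finset.prod_congr rfl fun p _ => hU p p.2 _ _
    rw [h2, Finset.prod_univ_sum, Fintype.piFinset_univ]
    exact Finset.sum_congr rfl fun s _ => Finset.prod_mul_distrib
  simp_rw [Finset.sum_mul]
  rw [Finset.sum_comm]
  refine Finset.sum_congr rfl fun A _ => ?_
  rw [h1 A A, Finset.mul_sum]
  refine Finset.sum_congr rfl fun C _ => ?_
  ring

/-- CHB: change of basis in a quadratic form with product kernel -/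
theorem CHB : S_CHB := by
  intro P J _ _ w T M hw l
  unfold qform ltrans
  have h1 : ∀ D E : ↥P → J, ∏ p : ↥P, w p (D p) (E p) =
      ∑ A : ↥P → J, ∑ B : ↥P → J, (∏ p : ↥P, T p (D p) (A p)) *
        (∏ p : ↥P, T p (E p) (B p)) * ∏ p : ↥P, M p (A p) (B p) := by
    intro D E
    have h2 : ∏ p : ↥P, w p (D p) (E p) = ∏ p : ↥P, ∑ a ∈ (univ : Finset J),
        ∑ b ∈ (univ : Finset J), T p (D p) a * T p (E p) b * M p a b :=
      Finset.prod_congr rfl fun p _ => hw p p.2 _ _
    rw [h2, Finset.prod_univ_sum, Fintype.piFinset_univ]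
    refine Finset.sum_congr rfl fun A _ => ?_
    rw [Finset.prod_univ_sum, Fintype.piFinset_univ]
    refine Finset.sum_congr rfl fun B _ => ?_
    rw [Finset.prod_mul_distrib, Finset.prod_mul_distrib]
  have h2 : ∀ A B : ↥P → J, (∑ D : ↥P → J, l D * ∏ p : ↥P, T p (D p) (A p)) *
      (∑ E : ↥P → J, l E * ∏ p : ↥P, T p (E p) (B p)) * ∏ p : ↥P, M p (A p) (B p) =
      ∑ D : ↥P → J, ∑ E : ↥P → J, l D * l E * ((∏ p : ↥P, T p (D p) (A p)) *
        (∏ p : ↥P, T p (E p) (B p)) * ∏ p : ↥P, M p (A p) (B p)) := by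
    intro A B
    rw [Finset.sum_mul_sum, Finset.sum_mul]
    refine Finset.sum_congr rfl fun D _ => ?_
    rw [Finset.sum_mul]
    refine Finset.sum_congr rfl fun E _ => ?_
    ring
  simp_rw [h2, h1, Finset.mul_sum]
  -- sum over D E A B = sum over A B D E
  calc ∑ D : ↥P → J, ∑ E : ↥P → J, ∑ A : ↥P → J, ∑ B : ↥P → J, l D * l E *
        ((∏ p : ↥P, T p (D p) (A p)) * (∏ p : ↥P, T p (E p) (B p)) * ∏ p : ↥P, M p (A p) (B p))
      = ∑ D : ↥P → J, ∑ A : ↥P → J, ∑ E : ↥P → J, ∑ B : ↥P → J, l D * l E *
        ((∏ p : ↥P, T p (D p) (A p)) * (∏ p : ↥P, T p (E p) (B p)) *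
          ∏ p : ↥P, M p (A p) (B p)) :=
        Finset.sum_congr rfl fun D _ => Finset.sum_comm
    _ = ∑ A : ↥P → J, ∑ D : ↥P → J, ∑ E : ↥P → J, ∑ B : ↥P → J, l D * l E *
        ((∏ p : ↥P, T p (D p) (A p)) * (∏ p : ↥P, T p (E p) (B p)) *
          ∏ p : ↥P, M p (A p) (B p)) := Finset.sum_comm
    _ = ∑ A : ↥P → J, ∑ D : ↥P → J, ∑ B : ↥P → J, ∑ E : ↥P → J, l D * l E *
        ((∏ p : ↥P, T p (D p) (A p)) * (∏ p : ↥P, T p (E p) (B p)) *
          ∏ p : ↥P, M p (A p) (B p)) :=
        Finset.sum_congr rfl fun A _ => Finset.sum_congr rfl fun D _ => Finset.sum_comm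
    _ = _ := Finset.sum_congr rfl fun A _ => Finset.sum_comm

end MTA
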